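import Pool.Agent.L0h86.JS.StmQ

set_option autoImplicit false
set_option linter.unusedSectionVars false

/-! Module VMQ7: multiquadratic fields, the split case. -/

open scoped Classical

namespace Pool.Agent.L0h63.JS

open Pool.Agent.L0h86.JS
open Pool.Agent.N848.Q
open Pool.Agent.Y715.Gi (QB)
open Pool.Agent.Y715.Nr (Au)
open Pool.Agent.R384 (vl Coc CobOn CocOn sgc)

lemma norm_two : ‖(2 : ℤ_[2])‖ = 1 / 2 := by
  have := PadicInt.norm_p (p := 2)
  simpa using this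

/-- the integers which are `1` modulo `8` are squares -/
lemma sqrt_one_eight {m : ℤ} (hm : m % 8 = 1) : ∃ u : ℤ_[2], u ^ 2 = m := by
  obtain ⟨l, hl⟩ : ∃ l : ℤ, m = 1 + 8 * l := ⟨m / 8, by omega⟩
  have h1 : ‖(Polynomial.X ^ 2 - Polynomial.C (m : ℤ_[2])).aeval (1 : ℤ_[2])‖ <
      ‖(Polynomial.X ^ 2 - Polynomial.C (m : ℤ_[2])).derivative.aeval (1 : ℤ_[2])‖ ^ 2 := by
    have e1 : (Polynomial.X ^ 2 - Polynomial.C (m : ℤ_[2])).aeval (1 : ℤ_[2]) =
        -(2 ^ 3 * (l : ℤ_[2])) := by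
      rw [hl, map_sub, map_pow, Polynomial.aeval_X, Polynomial.aeval_C, Algebra.algebraMap_self,
        RingHom.id_apply]
      push_cast
      ring
    have e2 : (Polynomial.X ^ 2 - Polynomial.C (m : ℤ_[2])).derivative.aeval (1 : ℤ_[2]) = 2 := by
      simp
      norm_num
    rw [e1, e2, norm_neg, norm_mul, norm_pow, norm_two]
    have := PadicInt.norm_le_one (l : ℤ_[2])
    nlinarith
  obtain ⟨z, hz, _⟩ := hensels_lemma h1
  refine ⟨z, ?_⟩
  have h2 : z ^ 2 - (m : ℤ_[2]) = 0 := by simpa using hz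
  exact sub_eq_zero.1 h2

/-- the decomposition groups over two fix the square roots of these integers -/
lemma fix_of_sq {m : ℤ} (hm : m % 8 = 1) {r : QB} (hr : r ^ 2 = m) (ι : QB →ₐ[ℚ] PadicAlgCl 2)
    {σ : G} (hσ : σ ∈ DD ι) : σ r = r := by
  obtain ⟨τ, hτ⟩ := hσ
  obtain ⟨u, hu⟩ := sqrt_one_eight hm
  apply ι.injective
  show ι (σ r) = ι r
  rw [← hτ]
  have h1 : (ι r) ^ 2 = (algebraMap ℚ_[2] (PadicAlgCl 2) (u : ℚ_[2])) ^ 2 := by
    rw [← map_pow, hr, map_intCast, ← map_pow, ← PadicInt.coe_pow, hu]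
    simp
  rcases sq_eq_sq_iff_eq_or_eq_neg.mp h1 with h | h
  · rw [h, AlgEquiv.commutes]
  · rw [h, map_neg, AlgEquiv.commutes]

/-! ### Units modulo eight -/

/-- reduction modulo eight -/
noncomputable def ph8 : ℤ_[2]ˣ →* (ZMod (2 ^ 3))ˣ := Units.map (PadicInt.toZModPow 3).toMonoidHom

lemma dvd_iff_ker8 (z : ℤ_[2]) : (8 : ℤ_[2]) ∣ z ↔ PadicInt.toZModPow 3 z = 0 := by
  have h1 : PadicInt.toZModPow 3 z = 0 ↔ z ∈ RingHom.ker (PadicInt.toZModPow (p := 2) 3) := Iff.rfl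
  rw [h1, PadicInt.ker_toZModPow, Ideal.mem_span_singleton]
  have e : ((2 : ℕ) : ℤ_[2]) ^ 3 = 8 := by norm_num
  rw [e]

lemma ph8_one {u : ℤ_[2]ˣ} : ph8 u = 1 ↔ (8 : ℤ_[2]) ∣ (u : ℤ_[2]) - 1 := by
  rw [dvd_iff_ker8, map_sub, map_one, sub_eq_zero, Units.ext_iff]
  rfl

lemma ph8_neg {u : ℤ_[2]ˣ} : ph8 u = -1 ↔ (8 : ℤ_[2]) ∣ (u : ℤ_[2]) + 1 := by
  rw [dvd_iff_ker8, map_add, map_one, ← eq_neg_iff_add_eq_zero, Units.ext_iff]
  rfl

lemma sq_eight (u : (ZMod (2 ^ 3))ˣ) : u ^ 2 = 1 := by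
  revert u
  decide

lemma ph8_neg_one : ph8 (-1) = -1 := by
  rw [ph8_neg]
  simp

lemma ph8_odd {k : ℤ} (hk : Odd k) (u : ℤ_[2]ˣ) : ph8 (u ^ k) = ph8 u := by
  obtain ⟨l, rfl⟩ := hk
  rw [map_zpow, zpow_add, zpow_mul, zpow_one]
  norm_cast
  rw [sq_eight, one_zpow, one_mul]

lemma four_of_eight {z : ℤ_[2]} (h : (8 : ℤ_[2]) ∣ z) : (4 : ℤ_[2]) ∣ z :=
  dvd_trans ⟨2, by norm_num⟩ h

lemma ph_ne : (1 : (ZMod (2 ^ 2))ˣ) ≠ -1 := by decide

/-- the square root of two -/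
lemma two_iff {s₂ : QB} (hs : s₂ ^ 2 = 2) (σ : G) :
    σ s₂ = s₂ ↔ ph8 (cyc σ) = 1 ∨ ph8 (cyc σ) = -1 := by
  obtain ⟨z, hz⟩ : ∃ z : QB, z ^ 4 = -1 := IsAlgClosed.exists_pow_nat_eq _ (by norm_num)
  have hz0 : z ≠ 0 := by
    rintro rfl
    norm_num at hz
  have h2 : (z + z⁻¹) ^ 2 = 2 := by
    have e : (z + z⁻¹) ^ 2 * z ^ 2 = 2 * z ^ 2 := by
      have : (z + z⁻¹) * z = z ^ 2 + 1 := by field_simp
      calc (z + z⁻¹) ^ 2 * z ^ 2 = ((z + z⁻¹) * z) ^ 2 := by ring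
        _ = 2 * z ^ 2 := by rw [this]; linear_combination hz
    exact mul_right_cancel₀ (pow_ne_zero 2 hz0) e
  have hne0 : z + z⁻¹ ≠ 0 := by
    intro h
    rw [h] at h2
    norm_num at h2
  have h3 : σ s₂ = s₂ ↔ σ (z + z⁻¹) = z + z⁻¹ := by
    rcases sq_eq_sq_iff_eq_or_eq_neg.mp (hs.trans h2.symm) with h | h
    · rw [h]
    · rw [h, map_neg, neg_inj]
  rw [h3]
  have h8 : z ^ 2 ^ 3 = 1 := by
    have : z ^ 2 ^ 3 = (z ^ 4) ^ 2 := by ring
    rw [this, hz]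
    norm_num
  have h1 := cyc_spec σ h8
  have hu : IsUnit (((cyc σ : ℤ_[2]ˣ) : ℤ_[2]).toZModPow 3) := (cyc σ).isUnit.map _
  have h01 : ∀ w : ZMod (2 ^ 3), IsUnit w → w = 1 ∨ w = 3 ∨ w = 5 ∨ w = -1 := by decide
  have hp1 : ph8 (cyc σ) = 1 ↔ ((cyc σ : ℤ_[2]ˣ) : ℤ_[2]).toZModPow 3 = 1 := by
    rw [Units.ext_iff]
    rfl
  have hp2 : ph8 (cyc σ) = -1 ↔ ((cyc σ : ℤ_[2]ˣ) : ℤ_[2]).toZModPow 3 = -1 := by
    rw [Units.ext_iff]
    rfl
  rw [hp1, hp2]
  have hinv : z⁻¹ = -z ^ 3 := by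
    apply mul_left_cancel₀ hz0
    rw [mul_inv_cancel₀ hz0]
    linear_combination hz
  rcases h01 _ hu with h4 | h4 | h4 | h4
  · have hv : ((1 : ZMod (2 ^ 3))).val = 1 := by decide
    rw [h4, hv, pow_one] at h1
    rw [map_add, map_inv₀, h1, h4]
    exact ⟨fun _ => Or.inl rfl, fun _ => rfl⟩
  · have hv : ((3 : ZMod (2 ^ 3))).val = 3 := by decide
    rw [h4, hv] at h1
    have h5 : σ (z + z⁻¹) = -(z + z⁻¹) := by
      rw [hinv, map_add, map_neg, map_pow, h1]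
      linear_combination (-z ^ 5 + z) * hz
    rw [h5, h4]
    constructor
    · intro h
      exact absurd h.symm (ne_neg hne0)
    · intro h
      exact absurd h (by decide)
  · have hv : ((5 : ZMod (2 ^ 3))).val = 5 := by decide
    rw [h4, hv] at h1
    have h5 : σ (z + z⁻¹) = -(z + z⁻¹) := by
      rw [hinv, map_add, map_neg, map_pow, h1]
      linear_combination (z - z ^ 11 + z ^ 7 - z ^ 3) * hz
    rw [h5, h4]
    constructor
    · intro h
      exact absurd h.symm (ne_neg hne0)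
    · intro h
      exact absurd h (by decide)
  · have hv : ((-1 : ZMod (2 ^ 3))).val = 7 := by decide
    rw [h4, hv] at h1
    have h7 : z ^ 7 = z⁻¹ := eq_inv_of_mul_eq_one_left (by rw [← h8]; ring)
    rw [h7] at h1
    rw [map_add, map_inv₀, h1, inv_inv, add_comm, h4]
    exact ⟨fun _ => Or.inr rfl, fun _ => rfl⟩

section mq

variable {s : ℤ → QB} (hs0 : ∀ a, s a ≠ 0) (hs : ∀ a (σ : G), σ (s a) = s a ∨ σ (s a) = -s a)

/-- the sign of the product of the characters -/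
lemma prod_sgn (σ : G) (T : Finset ℤ) :
    (σ (∏ a ∈ T, s a) = ∏ a ∈ T, s a ∧ (∏ a ∈ T, sgc (es (hs0 a) (hs a))) σ = 1) ∨
      (σ (∏ a ∈ T, s a) = -∏ a ∈ T, s a ∧ (∏ a ∈ T, sgc (es (hs0 a) (hs a))) σ = -1) := by
  induction T using Finset.induction_on with
  | empty =>
    left
    rw [Finset.prod_empty, Finset.prod_empty, map_one]
    exact ⟨rfl, rfl⟩
  | insert b T hb ih =>
    rw [Finset.prod_insert hb, Finset.prod_insert hb, map_mul, MonoidHom.mul_apply]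
    rcases hs b σ with h | h
    · have h1 : sgc (es (hs0 b) (hs b)) σ = 1 := sgc_one ((es_one (hs0 b) (hs b)).2 h)
      rw [h, h1, one_mul]
      rcases ih with ⟨h2, h3⟩ | ⟨h2, h3⟩
      · left
        exact ⟨by rw [h2], h3⟩
      · right
        exact ⟨by rw [h2]; ring, h3⟩
    · have h1 : sgc (es (hs0 b) (hs b)) σ = -1 := sgc_neg ((es_neg (hs0 b) (hs b)).2 h)
      rw [h, h1]
      rcases ih with ⟨h2, h3⟩ | ⟨h2, h3⟩
      · right
        exact ⟨by rw [h2]; ring, by rw [h3, mul_one]⟩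
      · left
        exact ⟨by rw [h2]; ring, by rw [h3]; simp⟩

end mq

theorem t_VMQ7 (hV : S_VAN7) : S_VMQ7 := by
  intro s hs0 hs A h2 k hk hC
  refine van_all hs0 hs A _ fun T hT => ?_
  have h3 : (∏ a ∈ T, s a) ^ 2 = ((∏ a ∈ T, a : ℤ) : QB) := by
    rw [← Finset.prod_pow, Int.cast_prod]
    exact Finset.prod_congr rfl fun a ha => h2 a (hT ha)
  have h4 : ∏ a ∈ T, a ≠ 0 := by
    intro h5
    rw [h5, Int.cast_zero] at h3
    exact Finset.prod_ne_zero_iff.2 (fun a _ => hs0 a) ((pow_eq_zero_iff two_ne_zero).1 h3)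
  -- the squarefree part
  obtain ⟨a, b, hab, ha⟩ := Nat.sq_mul_squarefree (∏ a ∈ T, a).natAbs
  have hb0 : b ≠ 0 := by
    rintro rfl
    rw [pow_two, zero_mul, zero_mul] at hab
    exact h4 (Int.natAbs_eq_zero.1 hab.symm)
  obtain ⟨e, he⟩ : ∃ e : ℤ, e = (∏ a ∈ T, a).sign * a := ⟨_, rfl⟩
  have hsq : Squarefree e.natAbs := by
    rw [he, Int.natAbs_mul, Int.natAbs_sign_of_ne_zero h4, one_mul, Int.natAbs_natCast]
    exact ha
  have hef : ∏ a ∈ T, a = e * (b : ℤ) ^ 2 := by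
    conv_lhs => rw [← Int.sign_mul_natAbs (∏ a ∈ T, a)]
    rw [← hab, he]
    push_cast
    ring
  have hG := hC T hT e b hef (Int.squarefree_natAbs.1 hsq)
  have hbQ : ((b : ℚ) : QB) ≠ 0 := by exact_mod_cast hb0
  have hP0 : ∏ a ∈ T, s a ≠ 0 := Finset.prod_ne_zero_iff.2 (fun a _ => hs0 a)
  have hcd := chi_prod hs0 hs T
  obtain ⟨I, hI⟩ : ∃ I : QB, I ^ 2 = -1 := IsAlgClosed.exists_pow_nat_eq _ (by norm_num)
  have hI0 : I ≠ 0 := by
    rintro rfl
    norm_num at hI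
  have cd := ((chi_cyc_odd hI hk).mul hcd).resc (f := b) (by exact_mod_cast hb0)
  have hr : (I * (∏ a ∈ T, s a) / ((b : ℚ) : QB)) ^ 2 = ((-e : ℤ) : QB) := by
    rw [div_pow, mul_pow, hI, h3, hef, div_eq_iff (pow_ne_zero _ hbQ)]
    push_cast
    ring
  by_cases h8 : (-e) % 8 = 1
  · have hC7 : Cr7 (-e) := by
      unfold CrG at hG
      rwa [if_pos h8] at hG
    obtain ⟨s₂, hs₂⟩ : ∃ s₂ : QB, s₂ ^ 2 = 2 := IsAlgClosed.exists_pow_nat_eq _ (by norm_num)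
    have key : ∀ (ι : QB →ₐ[ℚ] PadicAlgCl 2), ∀ σ ∈ DD ι,
        ((8 : ℤ_[2]) ∣ (((cyc ^ k * ∏ a ∈ T, sgc (es (hs0 a) (hs a))) σ : ℤ_[2]ˣ) : ℤ_[2]) - 1 ↔
          σ s₂ = s₂) := by
      intro ι σ hσ
      have h5 := fix_of_sq h8 hr ι hσ
      have h6 : σ (I * ∏ a ∈ T, s a) = I * ∏ a ∈ T, s a := by
        rw [map_div₀, map_ratCast, div_left_inj' hbQ] at h5
        exact h5
      rw [← ph8_one, two_iff hs₂, MonoidHom.mul_apply, map_mul]
      have h7 : ph8 ((cyc ^ k : G →* ℤ_[2]ˣ) σ) = ph8 (cyc σ) := ph8_odd hk (cyc σ)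
      rw [h7]
      rcases root_or' (a := -1) (t := I) (by rw [hI]; simp) σ with hi | hi
      · -- `σ` fixes `I`
        have hs1 : (∏ a ∈ T, sgc (es (hs0 a) (hs a))) σ = 1 := by
          rcases prod_sgn hs0 hs σ T with ⟨_, h9⟩ | ⟨h9, _⟩
          · exact h9
          · exfalso
            rw [map_mul, hi, h9, mul_neg] at h6
            exact ne_neg (mul_ne_zero hI0 hP0) h6.symm
        rw [hs1, map_one, mul_one]
        constructor
        · exact Or.inl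
        · rintro (h10 | h10)
          · exact h10
          · exfalso
            have h11 := ph_neg.2 (four_of_eight (ph8_neg.1 h10))
            rw [(cyc_four hI σ).1 hi] at h11
            exact ph_ne h11
      · -- `σ` does not fix `I`
        have hs1 : (∏ a ∈ T, sgc (es (hs0 a) (hs a))) σ = -1 := by
          rcases prod_sgn hs0 hs σ T with ⟨h9, _⟩ | ⟨_, h9⟩
          · exfalso
            rw [map_mul, hi, h9, neg_mul] at h6
            exact ne_neg (mul_ne_zero hI0 hP0) h6.symm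
          · exact h9
        rw [hs1, ph8_neg_one, mul_neg, mul_one, neg_eq_iff_eq_neg]
        constructor
        · exact Or.inr
        · rintro (h10 | h10)
          · exfalso
            have h11 := ph_one.2 (four_of_eight (ph8_one.1 h10))
            rw [(cyc_four hI σ).2 hi] at h11
            exact ph_ne h11.symm
          · exact h10
    intro c hc hodd htwo
    obtain ⟨y, hy⟩ := hV _ _ s₂ (-e) cd hr (by rwa [Int.natAbs_neg]) h8 hs₂ key hC7 c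
      ⟨continuousOn_univ.1 (by simpa using hc.cont), fun σ τ =>
        hc.mul σ (Subgroup.mem_top σ) τ (Subgroup.mem_top τ)⟩ (fun p _ ι hp => by
        obtain ⟨y, hy⟩ := hodd p ι hp
        exact ⟨y, fun σ hσ => hy σ hσ (Subgroup.mem_top σ)⟩) (fun ι => by
        obtain ⟨y, hy⟩ := htwo ι
        exact ⟨y, fun σ hσ => hy σ hσ (Subgroup.mem_top σ)⟩)
    exact ⟨y, fun σ _ => hy σ⟩
  · have hCr : Crit (-e) := by
      unfold CrG at hG
      rw [if_neg h8] at hG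
      exact hG
    exact van_top cd hr (by rwa [Int.natAbs_neg]) hCr

end Pool.Agent.L0h63.JS
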