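import Pool.Agent.L0h86.JS.StmN
import Pool.Agent.L0h63.JS.VMQ7

set_option autoImplicit false
set_option linter.unusedSectionVars false

/-! Module VMQN: multiquadratic fields, all twists. -/

open scoped Classical

namespace Pool.Agent.L0h63.JS

open Pool.Agent.L0h86.JS
open Pool.Agent.N848.Q
open Pool.Agent.Y715.Gi (QB)
open Pool.Agent.Y715.Nr (Au)
open Pool.Agent.R384 (vl Coc CobOn CocOn sgc)

/-! ### Powers of two-adic units -/

lemma unit_one_add (t : ℤ_[2]) : IsUnit (1 + 2 * t) := by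
  rw [PadicInt.isUnit_iff]
  have h1 : ‖(2 * t : ℤ_[2])‖ < 1 := by
    rw [norm_mul, norm_two]
    have := PadicInt.norm_le_one t
    linarith
  have h2 := PadicInt.norm_add_eq_max_of_ne (q := (1 : ℤ_[2])) (r := 2 * t) (by
    rw [norm_one]; exact h1.ne')
  rw [h2, norm_one]
  exact max_eq_left h1.le

lemma step {w : ℤ_[2]} (hw : (4 : ℤ_[2]) ∣ w - 1) (n : ℕ) :
    (2 : ℤ_[2]) ^ (n + 1) ∣ w ^ 2 - 1 ↔ (2 : ℤ_[2]) ^ n ∣ w - 1 := by
  obtain ⟨t, ht⟩ := hw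
  have e : w ^ 2 - 1 = 2 * ((1 + 2 * t) * (w - 1)) := by
    linear_combination (w - 1) * ht
  rw [e, pow_succ', mul_dvd_mul_iff_left (two_ne_zero), (unit_one_add t).dvd_mul_left]

lemma odd_pow {w : ℤ_[2]} (hw : (2 : ℤ_[2]) ∣ w - 1) {l : ℕ} (hl : Odd l) (n : ℕ) :
    (2 : ℤ_[2]) ^ n ∣ w ^ l - 1 ↔ (2 : ℤ_[2]) ^ n ∣ w - 1 := by
  have h5 : (2 : ℤ_[2]) ∣ (∑ i ∈ Finset.range l, w ^ i) - l := by
    have e : (∑ i ∈ Finset.range l, w ^ i) - (l : ℤ_[2]) =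
        ∑ i ∈ Finset.range l, (w ^ i - 1) := by
      rw [Finset.sum_sub_distrib]
      simp
    rw [e]
    apply Finset.dvd_sum
    intro i _
    exact hw.trans (by simpa using sub_dvd_pow_sub_pow w 1 i)
  obtain ⟨t, ht⟩ := h5
  obtain ⟨l', hl'⟩ := hl
  have hs : (∑ i ∈ Finset.range l, w ^ i) = 1 + 2 * (t + l') := by
    have h6 : (l : ℤ_[2]) = 2 * l' + 1 := by rw [hl']; push_cast; ring
    rw [h6] at ht
    linear_combination ht
  rw [← geom_sum_mul, hs, (unit_one_add _).dvd_mul_left]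

lemma iter (i : ℕ) : ∀ {w : ℤ_[2]}, (4 : ℤ_[2]) ∣ w - 1 → ∀ n : ℕ,
    ((2 : ℤ_[2]) ^ (n + i) ∣ w ^ 2 ^ i - 1 ↔ (2 : ℤ_[2]) ^ n ∣ w - 1) := by
  induction i with
  | zero =>
    intro w _ n
    rw [pow_zero, pow_one, add_zero]
  | succ i ih =>
    intro w hw n
    have h4 : (4 : ℤ_[2]) ∣ w ^ 2 - 1 := hw.trans (by simpa using sub_dvd_pow_sub_pow w 1 2)
    have h1 := ih h4 (n + 1)
    rw [step hw n] at h1
    rw [← h1, pow_succ' 2 i, pow_mul, show n + (i + 1) = n + 1 + i by omega]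

lemma sq_sixteen (u : ℤ_[2]ˣ) : (2 : ℤ_[2]) ^ 4 ∣ (u : ℤ_[2]) ^ 2 - 1 ↔
    ((8 : ℤ_[2]) ∣ (u : ℤ_[2]) - 1 ∨ (8 : ℤ_[2]) ∣ (u : ℤ_[2]) + 1) := by
  have e8 : (2 : ℤ_[2]) ^ 3 = 8 := by norm_num
  have h01 : ∀ v : (ZMod (2 ^ 2))ˣ, v = 1 ∨ v = -1 := by decide
  rcases h01 (ph u) with h | h
  · have h1 := step (ph_one.1 h) 3
    rw [e8] at h1
    rw [show (4 : ℕ) = 3 + 1 by norm_num, h1]
    constructor
    · exact Or.inl
    · rintro (h2 | h2)
      · exact h2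
      · exfalso
        have h3 := ph_neg.2 (four_of_eight h2)
        rw [h] at h3
        exact ph_ne h3
  · have h4 : (4 : ℤ_[2]) ∣ -(u : ℤ_[2]) - 1 := by
      have := ph_neg.1 h
      rw [show -(u : ℤ_[2]) - 1 = -((u : ℤ_[2]) + 1) by ring, dvd_neg]
      exact this
    have h1 := step h4 3
    rw [e8, show -(u : ℤ_[2]) - 1 = -((u : ℤ_[2]) + 1) by ring, dvd_neg, neg_sq] at h1
    rw [show (4 : ℕ) = 3 + 1 by norm_num, h1]
    constructor
    · exact Or.inr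
    · rintro (h2 | h2)
      · exfalso
        have h3 := ph_one.2 (four_of_eight h2)
        rw [h] at h3
        exact ph_ne h3.symm
      · exact h2

lemma sq_eight_dvd (u : ℤ_[2]ˣ) : (2 : ℤ_[2]) ^ 3 ∣ (u : ℤ_[2]) ^ 2 - 1 := by
  have h1 : ph8 (u ^ 2) = 1 := by rw [map_pow, sq_eight]
  have h2 := ph8_one.1 h1
  rw [Units.val_pow_eq_pow_val] at h2
  have e8 : (2 : ℤ_[2]) ^ 3 = 8 := by norm_num
  rw [e8]
  exact h2

/-- the powers with an even exponent -/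
lemma even_pow (u : ℤ_[2]ˣ) {k : ℤ} {i l : ℕ} (hl : Odd l) (hk : k.natAbs = 2 ^ (i + 1) * l) :
    (2 : ℤ_[2]) ^ (i + 3) ∣ ((u ^ k : ℤ_[2]ˣ) : ℤ_[2]) - 1 ∧
      ((2 : ℤ_[2]) ^ (i + 3 + 1) ∣ ((u ^ k : ℤ_[2]ˣ) : ℤ_[2]) - 1 ↔
        ((8 : ℤ_[2]) ∣ (u : ℤ_[2]) - 1 ∨ (8 : ℤ_[2]) ∣ (u : ℤ_[2]) + 1)) := by
  have h4 : (4 : ℤ_[2]) ∣ (u : ℤ_[2]) ^ 2 - 1 :=
    dvd_trans ⟨2, by norm_num⟩ (sq_eight_dvd u)
  have h2 : (2 : ℤ_[2]) ∣ ((u : ℤ_[2]) ^ 2) ^ 2 ^ i - 1 :=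
    (dvd_trans ⟨2, by norm_num⟩ h4).trans (by simpa using sub_dvd_pow_sub_pow ((u : ℤ_[2]) ^ 2) 1 (2 ^ i))
  have key : ∀ n : ℕ, (2 : ℤ_[2]) ^ (n + i) ∣ ((u ^ k.natAbs : ℤ_[2]ˣ) : ℤ_[2]) - 1 ↔
      (2 : ℤ_[2]) ^ n ∣ (u : ℤ_[2]) ^ 2 - 1 := by
    intro n
    rw [← iter i h4 n, ← odd_pow h2 hl (n + i), Units.val_pow_eq_pow_val, hk, ← pow_mul, ← pow_mul,
      pow_succ', mul_assoc]
  have hall : ∀ M : ℕ, (2 : ℤ_[2]) ^ M ∣ ((u ^ k : ℤ_[2]ˣ) : ℤ_[2]) - 1 ↔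
      (2 : ℤ_[2]) ^ M ∣ ((u ^ k.natAbs : ℤ_[2]ˣ) : ℤ_[2]) - 1 := by
    intro M
    rcases Int.natAbs_eq k with h5 | h5
    · have e : u ^ k = u ^ k.natAbs := by
        conv_lhs => rw [h5]
        exact zpow_natCast _ _
      rw [e]
    · have e : u ^ k = (u ^ k.natAbs)⁻¹ := by
        conv_lhs => rw [h5]
        rw [zpow_neg, zpow_natCast]
      rw [e]
      obtain ⟨v, hv⟩ : ∃ v : ℤ_[2]ˣ, v = u ^ k.natAbs := ⟨_, rfl⟩
      rw [← hv]
      have e2 : ((v⁻¹ : ℤ_[2]ˣ) : ℤ_[2]) - 1 = ((v⁻¹ : ℤ_[2]ˣ) : ℤ_[2]) * (-((v : ℤ_[2]) - 1)) := by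
        have : ((v⁻¹ : ℤ_[2]ˣ) : ℤ_[2]) * (v : ℤ_[2]) = 1 := by
          rw [← Units.val_mul, inv_mul_cancel, Units.val_one]
        linear_combination this
      rw [e2, (v⁻¹).isUnit.dvd_mul_left, dvd_neg]
  rw [hall, hall, show i + 3 + 1 = 4 + i by omega, show i + 3 = 3 + i by omega, key, key]
  exact ⟨sq_eight_dvd u, sq_sixteen u⟩

theorem t_VMQN (hV : S_VANN) : S_VMQN := by
  intro s hs0 hs A h2 k hk0 hC
  refine van_all hs0 hs A _ fun T hT => ?_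
  have h3 : (∏ a ∈ T, s a) ^ 2 = ((∏ a ∈ T, a : ℤ) : QB) := by
    rw [← Finset.prod_pow, Int.cast_prod]
    exact Finset.prod_congr rfl fun a ha => h2 a (hT ha)
  have h4 : ∏ a ∈ T, a ≠ 0 := by
    intro h5
    rw [h5, Int.cast_zero] at h3
    exact Finset.prod_ne_zero_iff.2 (fun a _ => hs0 a) ((pow_eq_zero_iff two_ne_zero).1 h3)
  -- the squarefree part
  obtain ⟨a, b, hab, ha⟩ := Nat.sq_mul_squarefree (∏ a ∈ T, a).natAbs
  have hb0 : b ≠ 0 := by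
    rintro rfl
    rw [pow_two, zero_mul, zero_mul] at hab
    exact h4 (Int.natAbs_eq_zero.1 hab.symm)
  obtain ⟨e, he⟩ : ∃ e : ℤ, e = (∏ a ∈ T, a).sign * a := ⟨_, rfl⟩
  have hsq : Squarefree e.natAbs := by
    rw [he, Int.natAbs_mul, Int.natAbs_sign_of_ne_zero h4, one_mul, Int.natAbs_natCast]
    exact ha
  have hef : ∏ a ∈ T, a = e * (b : ℤ) ^ 2 := by
    conv_lhs => rw [← Int.sign_mul_natAbs (∏ a ∈ T, a)]
    rw [← hab, he]
    push_cast
    ring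
  obtain ⟨hE, hO⟩ := hC T hT e b hef (Int.squarefree_natAbs.1 hsq)
  have hbQ : ((b : ℚ) : QB) ≠ 0 := by exact_mod_cast hb0
  have hP0 : ∏ a ∈ T, s a ≠ 0 := Finset.prod_ne_zero_iff.2 (fun a _ => hs0 a)
  have hcd := chi_prod hs0 hs T
  obtain ⟨s₂, hs₂⟩ : ∃ s₂ : QB, s₂ ^ 2 = 2 := IsAlgClosed.exists_pow_nat_eq _ (by norm_num)
  -- from the vanishing to `VanOn`
  have hvan : ∀ (r : QB) (m : ℤ) (N : ℕ), ChiQ (cyc ^ k * ∏ a ∈ T, sgc (es (hs0 a) (hs a))) r →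
      r ^ 2 = m → Squarefree m.natAbs → m % 8 = 1 → 2 ≤ N →
      (∀ (ι : QB →ₐ[ℚ] PadicAlgCl 2), ∀ σ ∈ DD ι,
        (2 : ℤ_[2]) ^ N ∣ (((cyc ^ k * ∏ a ∈ T, sgc (es (hs0 a) (hs a))) σ : ℤ_[2]ˣ) : ℤ_[2]) - 1 ∧
        ((2 : ℤ_[2]) ^ (N + 1) ∣
          (((cyc ^ k * ∏ a ∈ T, sgc (es (hs0 a) (hs a))) σ : ℤ_[2]ˣ) : ℤ_[2]) - 1 ↔
            σ s₂ = s₂)) → Cr7 m →
      VanOn (cyc ^ k * ∏ a ∈ T, sgc (es (hs0 a) (hs a))) ⊤ := by
    intro r m N cd hr hm h8 hN key hC7 c hc hodd htwo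
    obtain ⟨y, hy⟩ := hV _ r s₂ m N cd hr hm h8 hs₂ hN key hC7 c
      ⟨continuousOn_univ.1 (by simpa using hc.cont), fun σ τ =>
        hc.mul σ (Subgroup.mem_top σ) τ (Subgroup.mem_top τ)⟩ (fun p _ ι hp => by
        obtain ⟨y, hy⟩ := hodd p ι hp
        exact ⟨y, fun σ hσ => hy σ hσ (Subgroup.mem_top σ)⟩) (fun ι => by
        obtain ⟨y, hy⟩ := htwo ι
        exact ⟨y, fun σ hσ => hy σ hσ (Subgroup.mem_top σ)⟩)
    exact ⟨y, fun σ _ => hy σ⟩
  rcases Int.even_or_odd k with hk | hk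
  · -- even exponents
    have cd := ((chi_cyc_even hk).mul hcd).resc (f := b) (by exact_mod_cast hb0)
    have hr : (1 * (∏ a ∈ T, s a) / ((b : ℚ) : QB)) ^ 2 = (e : QB) := by
      rw [one_mul, div_pow, h3, hef, div_eq_iff (pow_ne_zero _ hbQ)]
      push_cast
      ring
    by_cases h8 : e % 8 = 1 ∧ e ≠ 1
    · have hC7 : Cr7 e := by
        have := hE hk
        unfold CrE at this
        rwa [if_pos h8] at this
      obtain ⟨i', l, hl, hkl⟩ := Nat.exists_eq_two_pow_mul_odd (n := k.natAbs)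
        (Int.natAbs_ne_zero.mpr hk0)
      obtain ⟨i, rfl⟩ : ∃ i, i' = i + 1 := by
        rcases i' with _ | i
        · exfalso
          rw [pow_zero, one_mul] at hkl
          rw [← hkl] at hl
          have h5 : Odd k := Int.natAbs_odd.mp hl
          exact (Int.not_odd_iff_even.mpr hk) h5
        · exact ⟨i, rfl⟩
      refine hvan _ e (i + 3) cd hr hsq h8.1 (by omega) ?_ hC7
      intro ι σ hσ
      have h5 := fix_of_sq h8.1 hr ι hσ
      have h6 : σ (∏ a ∈ T, s a) = ∏ a ∈ T, s a := by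
        rw [map_div₀, map_ratCast, div_left_inj' hbQ, one_mul] at h5
        exact h5
      have hs1 : (∏ a ∈ T, sgc (es (hs0 a) (hs a))) σ = 1 := by
        rcases prod_sgn hs0 hs σ T with ⟨_, h9⟩ | ⟨h9, _⟩
        · exact h9
        · exfalso
          rw [h6] at h9
          exact ne_neg hP0 h9
      have hval : (cyc ^ k * ∏ a ∈ T, sgc (es (hs0 a) (hs a))) σ = (cyc σ) ^ k := by
        rw [MonoidHom.mul_apply, hs1, mul_one]
        rfl
      rw [hval, two_iff hs₂, ph8_one, ph8_neg]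
      exact even_pow (cyc σ) hl hkl
    · have hCr : Crit e := by
        have := hE hk
        unfold CrE at this
        rw [if_neg h8] at this
        exact this
      exact van_top cd hr hsq hCr
  · -- odd exponents
    obtain ⟨I, hI⟩ : ∃ I : QB, I ^ 2 = -1 := IsAlgClosed.exists_pow_nat_eq _ (by norm_num)
    have hI0 : I ≠ 0 := by
      rintro rfl
      norm_num at hI
    have cd := ((chi_cyc_odd hI hk).mul hcd).resc (f := b) (by exact_mod_cast hb0)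
    have hr : (I * (∏ a ∈ T, s a) / ((b : ℚ) : QB)) ^ 2 = ((-e : ℤ) : QB) := by
      rw [div_pow, mul_pow, hI, h3, hef, div_eq_iff (pow_ne_zero _ hbQ)]
      push_cast
      ring
    by_cases h8 : (-e) % 8 = 1 ∧ -e ≠ 1
    · have hC7 : Cr7 (-e) := by
        have := hO hk
        unfold CrE at this
        rwa [if_pos h8] at this
      refine hvan _ (-e) 2 cd hr (by rwa [Int.natAbs_neg]) h8.1 le_rfl ?_ hC7
      intro ι σ hσ
      have h5 := fix_of_sq h8.1 hr ι hσ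
      have e4 : (2 : ℤ_[2]) ^ 2 = 4 := by norm_num
      have e8 : (2 : ℤ_[2]) ^ (2 + 1) = 8 := by norm_num
      rw [e4, e8]
      refine ⟨ph_one.1 (cd.one σ h5), ?_⟩
      have h6 : σ (I * ∏ a ∈ T, s a) = I * ∏ a ∈ T, s a := by
        rw [map_div₀, map_ratCast, div_left_inj' hbQ] at h5
        exact h5
      rw [← ph8_one, two_iff hs₂, MonoidHom.mul_apply, map_mul]
      have h7 : ph8 ((cyc ^ k : G →* ℤ_[2]ˣ) σ) = ph8 (cyc σ) := ph8_odd hk (cyc σ)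
      rw [h7]
      rcases root_or' (a := -1) (t := I) (by rw [hI]; simp) σ with hi | hi
      · -- `σ` fixes `I`
        have hs1 : (∏ a ∈ T, sgc (es (hs0 a) (hs a))) σ = 1 := by
          rcases prod_sgn hs0 hs σ T with ⟨_, h9⟩ | ⟨h9, _⟩
          · exact h9
          · exfalso
            rw [map_mul, hi, h9, mul_neg] at h6
            exact ne_neg (mul_ne_zero hI0 hP0) h6.symm
        rw [hs1, map_one, mul_one]
        constructor
        · exact Or.inl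
        · rintro (h10 | h10)
          · exact h10
          · exfalso
            have h11 := ph_neg.2 (four_of_eight (ph8_neg.1 h10))
            rw [(cyc_four hI σ).1 hi] at h11
            exact ph_ne h11
      · -- `σ` does not fix `I`
        have hs1 : (∏ a ∈ T, sgc (es (hs0 a) (hs a))) σ = -1 := by
          rcases prod_sgn hs0 hs σ T with ⟨h9, _⟩ | ⟨_, h9⟩
          · exfalso
            rw [map_mul, hi, h9, neg_mul] at h6
            exact ne_neg (mul_ne_zero hI0 hP0) h6.symm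
          · exact h9
        rw [hs1, ph8_neg_one, mul_neg, mul_one, neg_eq_iff_eq_neg]
        constructor
        · exact Or.inr
        · rintro (h10 | h10)
          · exfalso
            have h11 := ph_one.2 (four_of_eight (ph8_one.1 h10))
            rw [(cyc_four hI σ).2 hi] at h11
            exact ph_ne h11.symm
          · exact h10
    · have hCr : Crit (-e) := by
        have := hO hk
        unfold CrE at this
        rw [if_neg h8] at this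
        exact this
      exact van_top cd hr (by rwa [Int.natAbs_neg]) hCr

end Pool.Agent.L0h63.JS
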